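import Mathlib
import Pool.Agent.SpU.Final

set_option autoImplicit false

open Finset

namespace Pool.Agent.Results.MP_9fc547_co.AlmostAll

/-- `G` is a spider forest: it has no cycle, every component contains a vertex of degree at least two
(that is, every component has at least two edges), and no component contains two vertices of degree
at least three. -/
structure IsSpiderForest {V : Type*} (G : SimpleGraph V) : Prop where
  acyclic : G.IsAcyclic
  two : ∀ v, ∃ b, G.Reachable v b ∧ 2 ≤ (G.neighborSet b).ncard
  one : ∀ a b, G.Reachable a b → 3 ≤ (G.neighborSet a).ncard → 3 ≤ (G.neighborSet b).ncard → a = b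

open Classical in
/-- `G`, with `m` edges, is `k`-shifted antimagic: there is a bijection `f` from the set of the edges
onto `{k + 1, ..., k + m}` such that the sums of the labels of the edges at the vertices are pairwise
distinct. -/
def ShiftedAntimagic {V : Type*} [Fintype V] (G : SimpleGraph V) (k : ℤ) : Prop :=
  ∃ f : Sym2 V → ℤ, Set.BijOn f G.edgeSet (Set.Ioc k (k + G.edgeSet.ncard)) ∧
    Function.Injective fun v => ∑ w ∈ univ.filter (fun w => G.Adj v w), f s(v, w)

/-- The set of the isomorphism classes of the graphs on the vertex set `{0, ..., n - 1}` with the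
property `P`: a class is the set of all graphs isomorphic to a graph `G` with this property. -/
def isomorphismClasses (n : ℕ) (P : SimpleGraph (Fin n) → Prop) :
    Set (Set (SimpleGraph (Fin n))) :=
  {c | ∃ G, P G ∧ c = {H | Nonempty (G ≃g H)}}

theorem ncard_isomorphismClasses (n : ℕ) (P : SimpleGraph (Fin n) → Prop) :
    (isomorphismClasses n P).ncard = Pool.SpU.classes n P := by
  unfold Pool.SpU.classes
  have h : isomorphismClasses n P = (fun q : Quotient (Pool.SpU.isoSetoid n) =>
      {H | Quotient.mk (Pool.SpU.isoSetoid n) H = q}) ''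
      ((Quotient.mk (Pool.SpU.isoSetoid n)) '' {G | P G}) := by
    ext c
    constructor
    · rintro ⟨G, hG, rfl⟩
      refine ⟨Quotient.mk _ G, ⟨G, hG, rfl⟩, ?_⟩
      ext H
      constructor
      · intro h
        obtain ⟨e⟩ : Nonempty (H ≃g G) := Quotient.exact h
        exact ⟨e.symm⟩
      · rintro ⟨e⟩
        exact Quotient.sound ⟨e.symm⟩
    · rintro ⟨_, ⟨G, hG, rfl⟩, rfl⟩
      refine ⟨G, hG, ?_⟩
      ext H
      constructor
      · intro h
        obtain ⟨e⟩ : Nonempty (H ≃g G) := Quotient.exact h
        exact ⟨e.symm⟩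
      · rintro ⟨e⟩
        exact Quotient.sound ⟨e.symm⟩
  rw [h]
  apply Set.ncard_image_of_injective
  intro q q' hq
  obtain ⟨H, rfl⟩ := Quotient.exists_rep q
  have : H ∈ {H' | Quotient.mk (Pool.SpU.isoSetoid n) H' = Quotient.mk _ H} := rfl
  rw [show {H' | Quotient.mk (Pool.SpU.isoSetoid n) H' = Quotient.mk _ H} = _ from hq] at this
  exact this

/-- **Almost all spider forests** `F` are `k`-shifted antimagic for every integer `k`, that is, have
`K(F) = ℤ`: for all large `n`, this holds for all but a share `exp (-n)` of the spider forests on the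
vertex set `{0, ..., n - 1}`, and for all but a share `exp (- δ n / log n)` of the isomorphism
classes of spider forests with `n` vertices, where `δ > 0` is a constant. -/
theorem result :
    (∃ n₀ : ℕ, ∀ n : ℕ, n₀ ≤ n →
      Real.exp n *
        ({G : SimpleGraph (Fin n) | IsSpiderForest G ∧ ¬ ∀ k : ℤ, ShiftedAntimagic G k}.ncard : ℝ) ≤
        ({G : SimpleGraph (Fin n) | IsSpiderForest G}.ncard : ℝ)) ∧
    (∃ δ : ℝ, 0 < δ ∧ ∃ n₀ : ℕ, ∀ n : ℕ, n₀ ≤ n →
      Real.exp (δ * n / Real.log n) *
        ((isomorphismClasses n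
          fun G => IsSpiderForest G ∧ ¬ ∀ k : ℤ, ShiftedAntimagic G k).ncard : ℝ) ≤
        ((isomorphismClasses n IsSpiderForest).ncard : ℝ)) := by
  have hd : ∀ (n : ℕ) (G : SimpleGraph (Fin n)) (v), (G.neighborSet v).ncard =
      Pool.SpA.deg G v := by
    intro n G v
    classical
    unfold Pool.SpA.deg
    rw [← Set.ncard_coe_finset]
    congr 1
    ext w
    simp
  have hS : ∀ (n : ℕ) (G : SimpleGraph (Fin n)), IsSpiderForest G ↔
      Pool.SpA.IsSpiderForest G := by
    intro n G
    constructor
    · intro hG
      refine ⟨hG.acyclic, ?_, ?_⟩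
      · intro v
        obtain ⟨b, h1, h2⟩ := hG.two v
        exact ⟨b, h1, by rwa [hd] at h2⟩
      · intro a b hab h1 h2
        exact hG.one a b hab (by rwa [hd]) (by rwa [hd])
    · intro hG
      refine ⟨hG.acyclic, ?_, ?_⟩
      · intro v
        obtain ⟨b, h1, h2⟩ := hG.two v
        exact ⟨b, h1, by rwa [hd]⟩
      · intro a b hab h1 h2
        exact hG.one a b hab (by rwa [hd] at h1) (by rwa [hd] at h2)
  constructor
  · obtain ⟨n0, h⟩ := Pool.SpA.almost_all
    refine ⟨n0, fun n hn => ?_⟩
    have h1 := h n hn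
    simp only [hS]
    exact h1
  · obtain ⟨δ, hδ, n0, h⟩ := Pool.SpU.almost_all_types
    refine ⟨δ, hδ, n0, fun n hn => ?_⟩
    have h1 := h n hn
    have e1 : (isomorphismClasses n
        fun G => IsSpiderForest G ∧ ¬ ∀ k : ℤ, ShiftedAntimagic G k).ncard =
        Pool.SpU.classes n
          (fun G => Pool.SpA.IsSpiderForest G ∧ ¬ ∀ k : ℤ, Pool.SpA.ShiftedAntimagic G k) := by
      rw [ncard_isomorphismClasses]
      congr 1
      ext G
      rw [hS]
      rfl
    have e2 : (isomorphismClasses n IsSpiderForest).ncard =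
        Pool.SpU.classes n Pool.SpA.IsSpiderForest := by
      rw [ncard_isomorphismClasses]
      congr 1
      ext G
      exact hS n G
    rw [e1, e2]
    exact h1

end Pool.Agent.Results.MP_9fc547_co.AlmostAll
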