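import Mathlib
import Pool.Agent.SpA.Final

set_option autoImplicit false

open Finset

namespace Pool.Agent.Results.MP_9fc547_co.FewLeaves

/-- `G` is a spider forest: it has no cycle, every component contains a vertex of degree at least two
(that is, every component has at least two edges), and no component contains two vertices of degree
at least three. -/
structure IsSpiderForest {V : Type*} (G : SimpleGraph V) : Prop where
  acyclic : G.IsAcyclic
  two : ∀ v, ∃ b, G.Reachable v b ∧ 2 ≤ (G.neighborSet b).ncard
  one : ∀ a b, G.Reachable a b → 3 ≤ (G.neighborSet a).ncard → 3 ≤ (G.neighborSet b).ncard → a = b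

open Classical in
/-- `G`, with `m` edges, is `k`-shifted antimagic: there is a bijection `f` from the set of the edges
onto `{k + 1, ..., k + m}` such that the sums of the labels of the edges at the vertices are pairwise
distinct. -/
def ShiftedAntimagic {V : Type*} [Fintype V] (G : SimpleGraph V) (k : ℤ) : Prop :=
  ∃ f : Sym2 V → ℤ, Set.BijOn f G.edgeSet (Set.Ioc k (k + G.edgeSet.ncard)) ∧
    Function.Injective fun v => ∑ w ∈ univ.filter (fun w => G.Adj v w), f s(v, w)

/-- **Spider forests with few leaves.** A spider forest with `m` edges and at most `m / 100000`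
leaves is `k`-shifted antimagic for every integer `k`. -/
theorem result {V : Type*} [Fintype V] (G : SimpleGraph V) (hG : IsSpiderForest G)
    (hleaves : 100000 * {v | (G.neighborSet v).ncard = 1}.ncard ≤ G.edgeSet.ncard) (k : ℤ) :
    ShiftedAntimagic G k := by
  classical
  have hd : ∀ v, (G.neighborSet v).ncard = Pool.SpA.deg G v := by
    intro v
    unfold Pool.SpA.deg
    rw [← Set.ncard_coe_finset]
    congr 1
    ext w
    simp
  have hl : {v | (G.neighborSet v).ncard = 1}.ncard = Pool.SpA.leaves G := by
    unfold Pool.SpA.leaves
    rw [← Set.ncard_coe_finset]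
    congr 1
    ext w
    simp [hd]
  have hS : Pool.SpA.IsSpiderForest G := by
    refine ⟨hG.acyclic, ?_, ?_⟩
    · intro v
      obtain ⟨b, h1, h2⟩ := hG.two v
      exact ⟨b, h1, by rwa [hd] at h2⟩
    · intro a b hab h1 h2
      exact hG.one a b hab (by rwa [hd]) (by rwa [hd])
  rw [hl] at hleaves
  rcases isEmpty_or_nonempty V with hV | hV
  · refine ⟨fun _ => 0, ?_, ?_⟩
    · have h0 : G.edgeSet = ∅ := by
        ext e
        induction e with
        | h a b => exact hV.elim a
      rw [h0]
      simp
    · intro v
      exact hV.elim v
  · exact Pool.SpA.few_leaves G hS hleaves k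

end Pool.Agent.Results.MP_9fc547_co.FewLeaves
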