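import Mathlib
import Pool.Agent.SpC75.Fam4

set_option autoImplicit false

open Finset

namespace Pool.Agent.Results.MP_9fc547_co.NonnegativeShifts

/-- `G` is a spider forest: it has no cycle, every component contains a vertex of degree at least two
(that is, every component has at least two edges), and no component contains two vertices of degree
at least three. -/
structure IsSpiderForest {V : Type*} (G : SimpleGraph V) : Prop where
  acyclic : G.IsAcyclic
  two : ∀ v, ∃ b, G.Reachable v b ∧ 2 ≤ (G.neighborSet b).ncard
  one : ∀ a b, G.Reachable a b → 3 ≤ (G.neighborSet a).ncard → 3 ≤ (G.neighborSet b).ncard → a = b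

open Classical in
/-- `G`, with `m` edges, is `k`-shifted antimagic: there is a bijection `f` from the set of the edges
onto `{k + 1, ..., k + m}` such that the sums of the labels of the edges at the vertices are pairwise
distinct. -/
def ShiftedAntimagic {V : Type*} [Fintype V] (G : SimpleGraph V) (k : ℤ) : Prop :=
  ∃ f : Sym2 V → ℤ, Set.BijOn f G.edgeSet (Set.Ioc k (k + G.edgeSet.ncard)) ∧
    Function.Injective fun v => ∑ w ∈ univ.filter (fun w => G.Adj v w), f s(v, w)

/-- the number of components which are paths with two edges, counted by their middle vertices: the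
vertices with exactly two neighbours, both of degree one -/
noncomputable def twoEdgePaths {V : Type*} (G : SimpleGraph V) : ℕ :=
  {v | (G.neighborSet v).ncard = 2 ∧ ∀ w, G.Adj v w → (G.neighborSet w).ncard = 1}.ncard

/-- **All nonnegative shifts.** Let `G` be a spider forest with `m` edges such that for every vertex of
degree at least three the degree plus the number of neighbours of degree at least two (that is, of legs
of length at least two) is at least five; so the only components which are not allowed are the stars
with three or four edges and the spiders with three legs of which exactly two have length one. Let `p`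
be the number of components which are paths with two edges. If `p = 0`, then `G` is `k`-shifted
antimagic for every `k ≥ - 1` and for every `k ≤ - m`. If `p ≥ 1`, then it is for every
`k ≥ (p - 1) / 2` and for every `k ≤ - m - (p + 1) / 2`. -/
theorem result {V : Type*} [Fintype V] (G : SimpleGraph V) (hG : IsSpiderForest G)
    (hcentre : ∀ c, 3 ≤ (G.neighborSet c).ncard →
      5 ≤ (G.neighborSet c).ncard + {w | G.Adj c w ∧ 2 ≤ (G.neighborSet w).ncard}.ncard)
    (k : ℤ) (hk : (twoEdgePaths G = 0 ∧ (-1 ≤ k ∨ k ≤ -(G.edgeSet.ncard : ℤ))) ∨
      (1 ≤ twoEdgePaths G ∧ ((twoEdgePaths G : ℤ) - 1 ≤ 2 * k ∨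
        2 * k ≤ -2 * (G.edgeSet.ncard : ℤ) - (twoEdgePaths G + 1)))) :
    ShiftedAntimagic G k := by
  classical
  have hd : ∀ v, (G.neighborSet v).ncard = Pool.SpA.deg G v := by
    intro v
    unfold Pool.SpA.deg
    rw [← Set.ncard_coe_finset]
    congr 1
    ext w
    simp
  have hS : Pool.SpA.IsSpiderForest G := by
    refine ⟨hG.acyclic, ?_, ?_⟩
    · intro v
      obtain ⟨b, h1, h2⟩ := hG.two v
      exact ⟨b, h1, by rwa [hd] at h2⟩
    · intro a b hab h1 h2
      exact hG.one a b hab (by rwa [hd]) (by rwa [hd])
  have hp : twoEdgePaths G = Pool.SpC75.p3c G := rfl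
  rw [hp] at hk
  exact Pool.SpC75.fam4 G hS hcentre k (by omega)

end Pool.Agent.Results.MP_9fc547_co.NonnegativeShifts
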